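import Pool.Agent.H6.Abund.Farkas

/-!
# Linear programming duality with complementary slackness, over the reals (copy of H56/FP/LP.lean, helper56)
-/

set_option linter.unusedSimpArgs false

namespace H36FT

open Pool.Agent.H6.Abund.FarkasAux

/-- the pairing of the matrix is symmetric -/
theorem lp_swap {I J : Type} [Fintype I] [Fintype J] (A : I → J → ℝ) (x : J → ℝ) (y : I → ℝ) :
    ∑ i, y i * ∑ j, A i j * x j = ∑ j, x j * ∑ i, A i j * y i := by
  simp only [Finset.mul_sum]
  rw [Finset.sum_comm]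
  refine Finset.sum_congr rfl fun j _ => Finset.sum_congr rfl fun i _ => ?_
  ring

/-- weak duality -/
theorem lp_weak {I J : Type} [Fintype I] [Fintype J] {A : I → J → ℝ} {b : I → ℝ} {c : J → ℝ}
    {x : J → ℝ} {y : I → ℝ} (hx : ∀ j, 0 ≤ x j) (hxb : ∀ i, ∑ j, A i j * x j = b i)
    (hy : ∀ j, ∑ i, A i j * y i ≤ c j) : ∑ i, y i * b i ≤ ∑ j, x j * c j := by
  have h1 : ∑ i, y i * b i = ∑ j, x j * ∑ i, A i j * y i := by
    rw [← lp_swap]
    exact Finset.sum_congr rfl fun i _ => by rw [hxb]
  rw [h1]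
  exact Finset.sum_le_sum fun j _ => mul_le_mul_of_nonneg_left (hy j) (hx j)

theorem lp_duality {I J : Type} [Fintype I] [Fintype J] (A : I → J → ℝ) (b : I → ℝ) (c : J → ℝ)
    (hp : ∃ x : J → ℝ, (∀ j, 0 ≤ x j) ∧ ∀ i, ∑ j, A i j * x j = b i)
    (hd : ∃ y : I → ℝ, ∀ j, ∑ i, A i j * y i ≤ c j) :
    ∃ (x : J → ℝ) (y : I → ℝ), (∀ j, 0 ≤ x j) ∧ (∀ i, ∑ j, A i j * x j = b i) ∧
      (∀ j, ∑ i, A i j * y i ≤ c j) ∧ (∀ j, x j * (c j - ∑ i, A i j * y i) = 0) := by
  classical
  -- generators of the cone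
  let vx : J → (I ⊕ J ⊕ Unit → ℝ) := fun j =>
    Sum.elim (fun i => A i j) (Sum.elim (fun _ => 0) (fun _ => c j))
  let vy : I → (I ⊕ J ⊕ Unit → ℝ) := fun i =>
    Sum.elim (fun _ => 0) (Sum.elim (fun j => A i j) (fun _ => - b i))
  let vs : J → (I ⊕ J ⊕ Unit → ℝ) := fun j =>
    Sum.elim (fun _ => 0) (Sum.elim (Pi.single j 1) (fun _ => 0))
  let vt : Unit → (I ⊕ J ⊕ Unit → ℝ) := fun _ =>
    Sum.elim (fun _ => 0) (Sum.elim (fun _ => 0) (fun _ => 1))
  let v : J ⊕ I ⊕ I ⊕ J ⊕ Unit → (I ⊕ J ⊕ Unit → ℝ) :=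
    Sum.elim vx (Sum.elim vy (Sum.elim (fun i => - vy i) (Sum.elim vs vt)))
  let χ : I ⊕ J ⊕ Unit → ℝ := Sum.elim b (Sum.elim c (fun _ => 0))
  rcases farkas_fintype (K := ℝ) v χ with ⟨α, hα, hsum⟩ | ⟨f, hf, hfχ⟩
  · obtain ⟨x, hx⟩ : ∃ x : J → ℝ, ∀ j, x j = α (Sum.inl j) := ⟨_, fun _ => rfl⟩
    obtain ⟨p, hp'⟩ : ∃ p : I → ℝ, ∀ i, p i = α (Sum.inr (Sum.inl i)) := ⟨_, fun _ => rfl⟩
    obtain ⟨q, hq⟩ : ∃ q : I → ℝ, ∀ i, q i = α (Sum.inr (Sum.inr (Sum.inl i))) :=
      ⟨_, fun _ => rfl⟩
    obtain ⟨s, hs⟩ : ∃ s : J → ℝ, ∀ j, s j = α (Sum.inr (Sum.inr (Sum.inr (Sum.inl j)))) :=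
      ⟨_, fun _ => rfl⟩
    obtain ⟨t, ht⟩ : ∃ t : ℝ, t = α (Sum.inr (Sum.inr (Sum.inr (Sum.inr ())))) := ⟨_, rfl⟩
    have hx0 : ∀ j, 0 ≤ x j := fun j => by rw [hx]; exact hα _
    have hs0 : ∀ j, 0 ≤ s j := fun j => by rw [hs]; exact hα _
    have ht0 : 0 ≤ t := by rw [ht]; exact hα _
    have e1 : ∀ i, ∑ j, A i j * x j = b i := by
      intro i
      have h := congrFun hsum (Sum.inl i)
      simp only [v, χ, vx, vy, vs, vt, Fintype.sum_sum_type, Finset.sum_apply, Pi.smul_apply,
        Sum.elim_inl, Sum.elim_inr, smul_eq_mul, Pi.add_apply, Pi.neg_apply, mul_zero, neg_zero,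
        Finset.sum_const_zero, add_zero, Finset.univ_unique, Finset.sum_singleton] at h
      rw [← h]
      exact Finset.sum_congr rfl fun j _ => by rw [hx]; ring
    have e2 : ∀ j, ∑ i, A i j * (p i - q i) + s j = c j := by
      intro j
      have h := congrFun hsum (Sum.inr (Sum.inl j))
      simp only [v, χ, vx, vy, vs, vt, Fintype.sum_sum_type, Finset.sum_apply, Pi.smul_apply,
        Sum.elim_inl, Sum.elim_inr, smul_eq_mul, Pi.add_apply, Pi.neg_apply, mul_zero, neg_zero,
        Finset.sum_const_zero, add_zero, zero_add, Finset.univ_unique, Finset.sum_singleton] at h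
      rw [← h]
      have h1 : ∑ k, α (Sum.inr (Sum.inr (Sum.inr (Sum.inl k)))) * (Pi.single k (1 : ℝ) : J → ℝ) j =
          s j := by
        rw [Finset.sum_eq_single j]
        · rw [Pi.single_eq_same, mul_one, hs]
        · intro k _ hk
          rw [Pi.single_eq_of_ne hk.symm, mul_zero]
        · intro hk
          exact absurd (Finset.mem_univ _) hk
      rw [h1, ← add_assoc, ← Finset.sum_add_distrib]
      congr 1
      exact Finset.sum_congr rfl fun i _ => by rw [hp', hq]; ring
    have e3 : ∑ j, x j * c j - ∑ i, (p i - q i) * b i + t = 0 := by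
      have h := congrFun hsum (Sum.inr (Sum.inr ()))
      simp only [v, χ, vx, vy, vs, vt, Fintype.sum_sum_type, Finset.sum_apply, Pi.smul_apply,
        Sum.elim_inl, Sum.elim_inr, smul_eq_mul, Pi.add_apply, Pi.neg_apply, mul_zero, neg_zero,
        Finset.sum_const_zero, add_zero, zero_add, Finset.univ_unique, Finset.sum_singleton] at h
      rw [← h, sub_eq_add_neg, ← Finset.sum_neg_distrib, add_assoc]
      congr 1
      · exact Finset.sum_congr rfl fun j _ => by rw [hx]
      · rw [← add_assoc, ← Finset.sum_add_distrib]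
        congr 1
        · exact Finset.sum_congr rfl fun i _ => by rw [hp', hq]; ring
        · rw [ht, mul_one]
    refine ⟨x, fun i => p i - q i, hx0, e1, ?_, ?_⟩
    · intro j
      have h1 := e2 j
      have h2 := hs0 j
      linarith
    · have hy : ∀ j, ∑ i, A i j * (p i - q i) ≤ c j := by
        intro j
        have h1 := e2 j
        have h2 := hs0 j
        linarith
      have hw : ∑ j, x j * (c j - ∑ i, A i j * (p i - q i)) = 0 := by
        have h1 := lp_swap A x (fun i => p i - q i)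
        have h2 : ∑ i, (p i - q i) * ∑ j, A i j * x j = ∑ i, (p i - q i) * b i :=
          Finset.sum_congr rfl fun i _ => by rw [e1]
        have h3 := lp_weak hx0 e1 hy
        have h4 : ∑ j, x j * (c j - ∑ i, A i j * (p i - q i)) =
            ∑ j, x j * c j - ∑ j, x j * ∑ i, A i j * (p i - q i) := by
          rw [← Finset.sum_sub_distrib]
          exact Finset.sum_congr rfl fun j _ => by ring
        rw [h4, ← h1, h2]
        linarith
      intro j
      have h5 := (Finset.sum_eq_zero_iff_of_nonneg (fun j _ =>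
        mul_nonneg (hx0 j) (sub_nonneg.2 (hy j)))).1 hw
      exact h5 j (Finset.mem_univ j)
  · exfalso
    obtain ⟨u, hu⟩ : ∃ u : I → ℝ, ∀ i, u i = f (Pi.single (Sum.inl i) 1) := ⟨_, fun _ => rfl⟩
    obtain ⟨w, hw⟩ : ∃ w : J → ℝ, ∀ j, w j = f (Pi.single (Sum.inr (Sum.inl j)) 1) :=
      ⟨_, fun _ => rfl⟩
    obtain ⟨θ, hθ⟩ : ∃ θ : ℝ, θ = f (Pi.single (Sum.inr (Sum.inr ())) 1) := ⟨_, rfl⟩
    have hfe : ∀ g : I ⊕ J ⊕ Unit → ℝ, f g = ∑ i, g (Sum.inl i) * u i +
        (∑ j, g (Sum.inr (Sum.inl j)) * w j + g (Sum.inr (Sum.inr ())) * θ) := by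
      intro g
      have h1 := LinearMap.pi_apply_eq_sum_univ f g
      rw [h1]
      simp only [Fintype.sum_sum_type, smul_eq_mul, Finset.univ_unique, Finset.sum_singleton]
      congr 1
      · refine Finset.sum_congr rfl fun i _ => ?_
        rw [hu]
        congr 2
        funext k
        rw [Pi.single_apply]
        simp [eq_comm]
      · congr 1
        · refine Finset.sum_congr rfl fun i _ => ?_
          rw [hw]
          congr 2
          funext k
          rw [Pi.single_apply]
          simp [eq_comm]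
        · rw [hθ]
          congr 2
          funext k
          rw [Pi.single_apply]
          simp [eq_comm]
    have c1 : ∀ j, 0 ≤ ∑ i, A i j * u i + c j * θ := by
      intro j
      have h := hf (Sum.inl j)
      rw [hfe] at h
      simpa [v, vx] using h
    have c2 : ∀ i, ∑ j, A i j * w j = θ * b i := by
      intro i
      have h := hf (Sum.inr (Sum.inl i))
      have h' := hf (Sum.inr (Sum.inr (Sum.inl i)))
      rw [hfe] at h h'
      simp [v, vy] at h h'
      linarith
    have c3 : ∀ j, 0 ≤ w j := by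
      intro j
      have h := hf (Sum.inr (Sum.inr (Sum.inr (Sum.inl j))))
      rw [hfe] at h
      simpa [v, vs, Pi.single_apply] using h
    have c4 : 0 ≤ θ := by
      have h := hf (Sum.inr (Sum.inr (Sum.inr (Sum.inr ()))))
      rw [hfe] at h
      simpa [v, vt] using h
    have c5 : ∑ i, b i * u i + ∑ j, c j * w j < 0 := by
      have h := hfχ
      rw [hfe] at h
      simpa [χ] using h
    rcases c4.lt_or_eq with hpos | h0
    · have h1 := lp_weak (A := A) (b := b) (c := c) (x := fun j => w j / θ)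
        (y := fun i => - u i / θ) (fun j => div_nonneg (c3 j) c4) (by
          intro i
          have h2 : ∑ j, A i j * (w j / θ) = (∑ j, A i j * w j) / θ := by
            rw [Finset.sum_div]
            exact Finset.sum_congr rfl fun j _ => by ring
          rw [h2, c2]
          field_simp) (by
          intro j
          have h2 : ∑ i, A i j * (- u i / θ) = - (∑ i, A i j * u i) / θ := by
            rw [← Finset.sum_neg_distrib, Finset.sum_div]
            exact Finset.sum_congr rfl fun i _ => by ring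
          rw [h2, div_le_iff₀ hpos]
          have := c1 j
          linarith)
      have h2 : ∑ i, - u i / θ * b i = - (∑ i, b i * u i) / θ := by
        rw [← Finset.sum_neg_distrib, Finset.sum_div]
        exact Finset.sum_congr rfl fun i _ => by ring
      have h3 : ∑ j, w j / θ * c j = (∑ j, c j * w j) / θ := by
        rw [Finset.sum_div]
        exact Finset.sum_congr rfl fun i _ => by ring
      rw [h2, h3, div_le_div_iff_of_pos_right hpos] at h1
      linarith
    · obtain ⟨x0, hx0, hx1⟩ := hp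
      obtain ⟨y0, hy0⟩ := hd
      rw [← h0] at c1 c2
      have h1 : 0 ≤ ∑ i, b i * u i := by
        have h2 := lp_swap A x0 u
        have h3 : ∑ i, b i * u i = ∑ i, u i * ∑ j, A i j * x0 j :=
          Finset.sum_congr rfl fun i _ => by rw [hx1]; ring
        rw [h3, h2]
        refine Finset.sum_nonneg fun j _ => mul_nonneg (hx0 j) ?_
        have := c1 j
        linarith
      have h2 : 0 ≤ ∑ j, c j * w j := by
        have h3 := lp_swap A w y0
        have h4 : ∑ i, y0 i * ∑ j, A i j * w j = 0 :=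
          Finset.sum_eq_zero fun i _ => by rw [c2]; ring
        have h5 : ∑ j, w j * ∑ i, A i j * y0 i ≤ ∑ j, c j * w j :=
          Finset.sum_le_sum fun j _ => by
            rw [mul_comm (c j)]
            exact mul_le_mul_of_nonneg_left (hy0 j) (c3 j)
        linarith
      linarith

end H36FT
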