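import Pool.Agent.H36.FT.Total
import Pool.Agent.H36.FT.LP

/-!
# Fractional triangle decompositions of 3-partite graphs up to `3 n / 14`: existence
-/

open Finset

set_option linter.unusedSectionVars false
set_option linter.unusedSimpArgs false

namespace H36FT

open H56FP Pool.Agent.H6.Abund.FarkasAux

variable {n : ℕ}

/-- ordered pairs of consecutive parts -/
abbrev Ed3 (n : ℕ) := ZMod 3 × Fin n × Fin n

lemma sum_tail (f : Ed3 n → ℝ) (v : ZMod 3 × Fin n) :
    ∑ e : Ed3 n, (if v = (e.1, e.2.1) then f e else 0) = ∑ b, f (v.1, v.2, b) := by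
  rw [Fintype.sum_prod_type, Finset.sum_eq_single v.1]
  · rw [Fintype.sum_prod_type, Finset.sum_eq_single v.2]
    · refine Finset.sum_congr rfl fun b _ => ?_
      simp
    · intro a _ ha
      refine Finset.sum_eq_zero fun b _ => ?_
      rw [if_neg]
      intro h
      exact ha (by rw [h])
    · intro h
      exact absurd (Finset.mem_univ _) h
  · intro i _ hi
    refine Finset.sum_eq_zero fun e _ => ?_
    rw [if_neg]
    intro h
    exact hi (by rw [h])
  · intro h
    exact absurd (Finset.mem_univ _) h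

lemma sum_head (f : Ed3 n → ℝ) (v : ZMod 3 × Fin n) :
    ∑ e : Ed3 n, (if v = (e.1 + 1, e.2.2) then f e else 0) = ∑ c, f (v.1 + 2, c, v.2) := by
  rw [Fintype.sum_prod_type, Finset.sum_eq_single (v.1 + 2)]
  · rw [Fintype.sum_prod_type]
    refine Finset.sum_congr rfl fun c _ => ?_
    rw [Finset.sum_eq_single v.2]
    · rw [if_pos]
      show v = (v.1 + 2 + 1, v.2)
      rw [H56FP.e21]
    · intro a _ ha
      rw [if_neg]
      intro h
      exact ha (by rw [h])
    · intro h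
      exact absurd (Finset.mem_univ _) h
  · intro i _ hi
    refine Finset.sum_eq_zero fun e _ => ?_
    rw [if_neg]
    intro h
    refine hi ?_
    have h1 : v.1 = i + 1 := by rw [h]
    rw [h1, H56FP.e12]
  · intro h
    exact absurd (Finset.mem_univ _) h

/-- the constraint matrix -/
noncomputable def mat (g : M3 ℝ n) :
    (Ed3 n ⊕ (ZMod 3 × Fin n) ⊕ (ZMod 3 × Fin n)) → (Ed3 n ⊕ Ed3 n ⊕ (ZMod 3 × Fin n)) → ℝ
  | Sum.inl e', Sum.inl e => if e' = e then 1 else 0
  | Sum.inl e', Sum.inr (Sum.inl e) => if e' = e then 1 else 0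
  | Sum.inl _, Sum.inr (Sum.inr _) => 0
  | Sum.inr (Sum.inl v), Sum.inl e => if v = (e.1, e.2.1) then g e.1 e.2.1 e.2.2 else 0
  | Sum.inr (Sum.inl _), Sum.inr (Sum.inl _) => 0
  | Sum.inr (Sum.inl v), Sum.inr (Sum.inr w) => if v = w then 1 else 0
  | Sum.inr (Sum.inr v), Sum.inl e => (if v = (e.1, e.2.1) then g e.1 e.2.1 e.2.2 else 0)
      - (if v = (e.1 + 1, e.2.2) then g e.1 e.2.1 e.2.2 else 0)
  | Sum.inr (Sum.inr _), Sum.inr (Sum.inl _) => 0
  | Sum.inr (Sum.inr _), Sum.inr (Sum.inr _) => 0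

/-- optimal data exist -/
theorem exists_dat {g : M3 ℝ n} {d : ZMod 3 → Fin n → ℝ} {k s : ℝ} (S : WSetup g d k)
    (hs : 0 < s) (z : M3 ℝ n)
    (tri : ∀ a b c, 0 < g 0 a b → 0 < g 1 b c → 0 < g 2 c a → 0 ≤ z 0 a b + z 1 b c + z 2 c a) :
    ∃ (x : M3 ℝ n) (p q e : ZMod 3 → Fin n → ℝ), Dat g d k s z x p q e := by
  classical
  let bb : Ed3 n ⊕ (ZMod 3 × Fin n) ⊕ (ZMod 3 × Fin n) → ℝ :=
    Sum.elim (fun _ => 1) (Sum.elim (fun _ => s) (fun _ => 0))
  let cc : Ed3 n ⊕ Ed3 n ⊕ (ZMod 3 × Fin n) → ℝ :=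
    Sum.elim (fun e => g e.1 e.2.1 e.2.2 * z e.1 e.2.1 e.2.2) (Sum.elim (fun _ => 0) (fun _ => 0))
  have hrow1 : ∀ (X : Ed3 n ⊕ Ed3 n ⊕ (ZMod 3 × Fin n) → ℝ) (e : Ed3 n),
      ∑ j, mat g (Sum.inl e) j * X j = X (Sum.inl e) + X (Sum.inr (Sum.inl e)) := by
    intro X e
    simp [Fintype.sum_sum_type, mat]
  have hrow2 : ∀ (X : Ed3 n ⊕ Ed3 n ⊕ (ZMod 3 × Fin n) → ℝ) (v : ZMod 3 × Fin n),
      ∑ j, mat g (Sum.inr (Sum.inl v)) j * X j
        = ∑ b, g v.1 v.2 b * X (Sum.inl (v.1, v.2, b)) + X (Sum.inr (Sum.inr v)) := by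
    intro X v
    simp only [Fintype.sum_sum_type, mat, zero_mul, Finset.sum_const_zero, zero_add, ite_mul,
      one_mul, Finset.sum_ite_eq, Finset.mem_univ, if_true]
    rw [sum_tail (fun e => g e.1 e.2.1 e.2.2 * X (Sum.inl e)) v]
  have hrow3 : ∀ (X : Ed3 n ⊕ Ed3 n ⊕ (ZMod 3 × Fin n) → ℝ) (v : ZMod 3 × Fin n),
      ∑ j, mat g (Sum.inr (Sum.inr v)) j * X j
        = ∑ b, g v.1 v.2 b * X (Sum.inl (v.1, v.2, b))
          - ∑ c, g (v.1 + 2) c v.2 * X (Sum.inl (v.1 + 2, c, v.2)) := by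
    intro X v
    simp only [Fintype.sum_sum_type, mat, zero_mul, Finset.sum_const_zero, add_zero, sub_mul,
      ite_mul, Finset.sum_sub_distrib]
    rw [sum_tail (fun e => g e.1 e.2.1 e.2.2 * X (Sum.inl e)) v,
      sum_head (fun e => g e.1 e.2.1 e.2.2 * X (Sum.inl e)) v]
  have hcol1 : ∀ (Y : Ed3 n ⊕ (ZMod 3 × Fin n) ⊕ (ZMod 3 × Fin n) → ℝ) (e : Ed3 n),
      ∑ j, mat g j (Sum.inl e) * Y j = Y (Sum.inl e)
        + (g e.1 e.2.1 e.2.2 * Y (Sum.inr (Sum.inl (e.1, e.2.1)))
        + (g e.1 e.2.1 e.2.2 * Y (Sum.inr (Sum.inr (e.1, e.2.1)))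
          - g e.1 e.2.1 e.2.2 * Y (Sum.inr (Sum.inr (e.1 + 1, e.2.2))))) := by
    intro Y e
    simp only [Fintype.sum_sum_type, mat, zero_mul, ite_mul, one_mul, sub_mul,
      Finset.sum_sub_distrib, Finset.sum_ite_eq', Finset.mem_univ, if_true]
  have hcol2 : ∀ (Y : Ed3 n ⊕ (ZMod 3 × Fin n) ⊕ (ZMod 3 × Fin n) → ℝ) (e : Ed3 n),
      ∑ j, mat g j (Sum.inr (Sum.inl e)) * Y j = Y (Sum.inl e) := by
    intro Y e
    simp [Fintype.sum_sum_type, mat]
  have hcol3 : ∀ (Y : Ed3 n ⊕ (ZMod 3 × Fin n) ⊕ (ZMod 3 × Fin n) → ℝ) (v : ZMod 3 × Fin n),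
      ∑ j, mat g j (Sum.inr (Sum.inr v)) * Y j = Y (Sum.inr (Sum.inl v)) := by
    intro Y v
    simp [Fintype.sum_sum_type, mat]
  obtain ⟨X, Y, X0, hX, hY, hXY⟩ := lp_duality (mat g) bb cc
    ⟨Sum.elim (fun _ => 0) (Sum.elim (fun _ => 1) (fun _ => s)), by
      rintro (e | e | v)
      · exact le_rfl
      · exact zero_le_one
      · exact hs.le, by
      rintro (e | v | v)
      · rw [hrow1]; simp [bb]
      · rw [hrow2]; simp [bb]
      · rw [hrow3]; simp [bb]⟩
    ⟨Sum.elim (fun e => -|g e.1 e.2.1 e.2.2 * z e.1 e.2.1 e.2.2|) (fun _ => 0), by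
      rintro (e | e | v)
      · rw [hcol1]
        simp only [Sum.elim_inl, Sum.elim_inr, mul_zero, sub_zero, add_zero, cc]
        exact neg_abs_le _
      · rw [hcol2]
        simp only [Sum.elim_inl, Sum.elim_inr, cc]
        exact neg_nonpos.2 (abs_nonneg _)
      · rw [hcol3]
        simp [cc]⟩
  -- unpack
  have c1 : ∀ e : Ed3 n, X (Sum.inl e) + X (Sum.inr (Sum.inl e)) = 1 := by
    intro e
    have := hX (Sum.inl e)
    rw [hrow1] at this
    exact this
  have c2 : ∀ v : ZMod 3 × Fin n, ∑ b, g v.1 v.2 b * X (Sum.inl (v.1, v.2, b))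
      + X (Sum.inr (Sum.inr v)) = s := by
    intro v
    have := hX (Sum.inr (Sum.inl v))
    rw [hrow2] at this
    exact this
  have c3 : ∀ v : ZMod 3 × Fin n, ∑ b, g v.1 v.2 b * X (Sum.inl (v.1, v.2, b))
      - ∑ c, g (v.1 + 2) c v.2 * X (Sum.inl (v.1 + 2, c, v.2)) = 0 := by
    intro v
    have := hX (Sum.inr (Sum.inr v))
    rw [hrow3] at this
    exact this
  have k1 := fun e : Ed3 n => hY (Sum.inl e)
  have k2 : ∀ e : Ed3 n, Y (Sum.inl e) ≤ 0 := by
    intro e
    have := hY (Sum.inr (Sum.inl e))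
    rw [hcol2] at this
    exact this
  have k3 : ∀ v : ZMod 3 × Fin n, Y (Sum.inr (Sum.inl v)) ≤ 0 := by
    intro v
    have := hY (Sum.inr (Sum.inr v))
    rw [hcol3] at this
    exact this
  have l1 := fun e : Ed3 n => hXY (Sum.inl e)
  have l2 : ∀ e : Ed3 n, X (Sum.inr (Sum.inl e)) * (0 - Y (Sum.inl e)) = 0 := by
    intro e
    have := hXY (Sum.inr (Sum.inl e))
    rw [hcol2] at this
    exact this
  have l3 : ∀ v : ZMod 3 × Fin n, X (Sum.inr (Sum.inr v)) * (0 - Y (Sum.inr (Sum.inl v))) = 0 := by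
    intro v
    have := hXY (Sum.inr (Sum.inr v))
    rw [hcol3] at this
    exact this
  simp only [hcol1] at k1 l1
  have hg0 := S.g0
  refine ⟨fun i a b => X (Sum.inl (i, a, b)),
    fun i a => - Y (Sum.inr (Sum.inl (i, a))) - Y (Sum.inr (Sum.inr (i, a))),
    fun i a => Y (Sum.inr (Sum.inr (i, a))), fun i a => X (Sum.inr (Sum.inr (i, a))) / s, ?_⟩
  refine ⟨S, hs, fun i a b => X0 _, fun i a b => ?_, fun i a => ?_, fun i a => ?_,
    fun i a => ?_, fun i a => ?_, fun i a b hg hy => ?_, fun i a b hg hy => ?_, fun i a => ?_,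
    fun i a h => ?_, tri⟩
  · have h1 := c1 (i, a, b)
    have h2 := X0 (Sum.inr (Sum.inl (i, a, b)))
    linarith
  · exact div_nonneg (X0 _) hs.le
  · rw [div_le_one hs]
    have h1 := c2 (i, a)
    have h2 : 0 ≤ ∑ b, g i a b * X (Sum.inl (i, a, b)) :=
      Finset.sum_nonneg fun b _ => mul_nonneg (hg0 _ _ _) (X0 _)
    simp only at h1
    linarith
  · have h1 := c2 (i, a)
    simp only at h1
    rw [mul_sub, mul_div_cancel₀ _ hs.ne']
    linarith
  · have h1 := c2 (i, a)
    have h2 := c3 (i, a)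
    simp only at h1 h2
    rw [mul_sub, mul_div_cancel₀ _ hs.ne']
    linarith
  · have h1 := l1 (i, a, b)
    rcases mul_eq_zero.1 h1 with h2 | h2
    · exact h2
    · exfalso
      have h3 := k2 (i, a, b)
      have h4 := mul_pos hg hy
      simp only [cc, Sum.elim_inl] at h2
      nlinarith
  · have h1 := l2 (i, a, b)
    rcases mul_eq_zero.1 h1 with h2 | h2
    · have h3 := c1 (i, a, b)
      rw [h2] at h3
      linarith
    · exfalso
      have h3 := k1 (i, a, b)
      have h4 := mul_neg_of_pos_of_neg hg hy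
      simp only [cc, Sum.elim_inl] at h3
      nlinarith
  · have := k3 (i, a)
    linarith
  · have h1 := l3 (i, a)
    rcases mul_eq_zero.1 h1 with h2 | h2
    · rw [h2, zero_div]
    · exfalso
      linarith

/-- product of the weights of a triple -/
noncomputable def tg (g : M3 ℝ n) (t : Fin n × Fin n × Fin n) : ℝ :=
  g 0 t.1 t.2.1 * g 1 t.2.1 t.2.2 * g 2 t.2.2 t.1

/-- Farkas' lemma for the triangles of a weighted tripartite graph. -/
theorem farkas_tri {g : M3 ℝ n} (g0 : ∀ i a b, 0 ≤ g i a b)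
    (h : ∀ z : M3 ℝ n, (∀ a b c, 0 < g 0 a b → 0 < g 1 b c → 0 < g 2 c a →
      0 ≤ z 0 a b + z 1 b c + z 2 c a) → 0 ≤ ∑ i, ∑ a, ∑ b, g i a b * z i a b) :
    ∃ w, IsDecomp g w := by
  classical
  let v : Fin n × Fin n × Fin n → (Ed3 n → ℝ) := fun t =>
    tg g t • (Pi.single (0, t.1, t.2.1) 1 + Pi.single (1, t.2.1, t.2.2) 1
      + Pi.single (2, t.2.2, t.1) 1)
  have ht0 : ∀ t, 0 ≤ tg g t := fun t =>
    mul_nonneg (mul_nonneg (g0 _ _ _) (g0 _ _ _)) (g0 _ _ _)
  rcases farkas_fintype (K := ℝ) v (fun e => g e.1 e.2.1 e.2.2) with ⟨α, hα, hs⟩ | ⟨f, hf, hχ⟩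
  · refine ⟨fun a b c => α (a, b, c) * tg g (a, b, c), fun a b c => mul_nonneg (hα _) (ht0 _),
      ?_, ?_, ?_⟩
    · intro a b
      have h1 := congrFun hs (0, a, b)
      rw [Finset.sum_apply] at h1
      simp only at h1
      refine Eq.trans ?_ h1
      symm
      rw [Fintype.sum_prod_type, Finset.sum_eq_single a, Fintype.sum_prod_type,
        Finset.sum_eq_single b]
      · refine Finset.sum_congr rfl fun c _ => ?_
        simp [v, Pi.single_apply, show (0 : ZMod 3) ≠ 1 by decide, show (0 : ZMod 3) ≠ 2 by decide]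
      · intro b' _ hb
        refine Finset.sum_eq_zero fun c _ => ?_
        simp [v, Pi.single_apply, hb.symm, show (0 : ZMod 3) ≠ 1 by decide,
          show (0 : ZMod 3) ≠ 2 by decide]
      · intro hh; exact absurd (Finset.mem_univ _) hh
      · intro a' _ ha
        refine Finset.sum_eq_zero fun t _ => ?_
        simp [v, Pi.single_apply, ha.symm, show (0 : ZMod 3) ≠ 1 by decide,
          show (0 : ZMod 3) ≠ 2 by decide]
      · intro hh; exact absurd (Finset.mem_univ _) hh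
    · intro b c
      have h1 := congrFun hs (1, b, c)
      rw [Finset.sum_apply] at h1
      simp only at h1
      rw [← h1, Fintype.sum_prod_type]
      refine Finset.sum_congr rfl fun a _ => ?_
      rw [Fintype.sum_prod_type, Finset.sum_eq_single b, Finset.sum_eq_single c]
      · simp [v, Pi.single_apply, show (1 : ZMod 3) ≠ 0 by decide, show (1 : ZMod 3) ≠ 2 by decide]
      · intro c' _ hc
        simp [v, Pi.single_apply, hc.symm, show (1 : ZMod 3) ≠ 0 by decide,
          show (1 : ZMod 3) ≠ 2 by decide]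
      · intro hh; exact absurd (Finset.mem_univ _) hh
      · intro b' _ hb
        refine Finset.sum_eq_zero fun c' _ => ?_
        simp [v, Pi.single_apply, hb.symm, show (1 : ZMod 3) ≠ 0 by decide,
          show (1 : ZMod 3) ≠ 2 by decide]
      · intro hh; exact absurd (Finset.mem_univ _) hh
    · intro c a
      have h1 := congrFun hs (2, c, a)
      rw [Finset.sum_apply] at h1
      simp only at h1
      refine Eq.trans ?_ h1
      symm
      rw [Fintype.sum_prod_type, Finset.sum_eq_single a, Fintype.sum_prod_type]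
      · refine Finset.sum_congr rfl fun b _ => ?_
        rw [Finset.sum_eq_single c]
        · simp [v, Pi.single_apply, show (2 : ZMod 3) ≠ 0 by decide,
            show (2 : ZMod 3) ≠ 1 by decide]
        · intro c' _ hc
          simp [v, Pi.single_apply, hc.symm, show (2 : ZMod 3) ≠ 0 by decide,
            show (2 : ZMod 3) ≠ 1 by decide]
        · intro hh; exact absurd (Finset.mem_univ _) hh
      · intro a' _ ha
        refine Finset.sum_eq_zero fun t _ => ?_
        simp [v, Pi.single_apply, ha.symm, show (2 : ZMod 3) ≠ 0 by decide,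
          show (2 : ZMod 3) ≠ 1 by decide]
      · intro hh; exact absurd (Finset.mem_univ _) hh
  · exfalso
    have hfe : ∀ G : Ed3 n → ℝ, f G = ∑ e : Ed3 n, G e * f (Pi.single e 1) := by
      intro G
      have h1 := LinearMap.pi_apply_eq_sum_univ f G
      rw [h1]
      refine Finset.sum_congr rfl fun e _ => ?_
      rw [smul_eq_mul]
      congr 2
      funext e'
      rw [Pi.single_apply]
      simp [eq_comm]
    have h2 := h (fun i a b => f (Pi.single (i, a, b) 1)) (by
      intro a b c h0 h1 h2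
      have h3 := hf (a, b, c)
      simp only [v, map_smul, map_add, smul_eq_mul] at h3
      have h4 : 0 < tg g (a, b, c) := mul_pos (mul_pos h0 h1) h2
      exact (mul_nonneg_iff_of_pos_left h4).1 h3)
    rw [hfe] at hχ
    have h5 : ∑ e : Ed3 n, g e.1 e.2.1 e.2.2 * f (Pi.single e 1)
        = ∑ i, ∑ a, ∑ b, g i a b * f (Pi.single (i, a, b) 1) := by
      rw [Fintype.sum_prod_type]
      refine Finset.sum_congr rfl fun i _ => ?_
      rw [Fintype.sum_prod_type]
    rw [h5] at hχ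
    exact absurd h2 (not_le.2 hχ)

/-- **Theorem.** A weighted locally balanced tripartite graph with deficiencies at most `k`,
`14 k ≤ 3 n`, has a fractional triangle decomposition. -/
theorem frac_decomp {g : M3 ℝ n} {d : ZMod 3 → Fin n → ℝ} {k : ℝ} (S : WSetup g d k)
    (hk : 0 ≤ k) (hn : 14 * k ≤ 3 * n) : ∃ w, IsDecomp g w := by
  rcases Nat.eq_zero_or_pos n with h0 | h0
  · subst h0
    exact ⟨fun _ _ _ => 0, fun a => a.elim0, fun a => a.elim0, fun a => a.elim0, fun a => a.elim0⟩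
  have hn0 : (0 : ℝ) < n := by exact_mod_cast h0
  refine farkas_tri S.g0 fun z tri => ?_
  obtain ⟨x, p, q, e, D⟩ := exists_dat S (s := (n - 2 * k) / 2) (by linarith) z tri
  exact D.total hk (by linarith) (by linarith) (by linarith)

end H36FT
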