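import Pool.Agent.H56.FP.WDefs

/-!
# Fractional triangle decompositions of 3-partite graphs up to `3 n / 14`: the certificate

`F i a b c` is the weight of the triangle with vertices `a, b, c` in the parts `i, i+1, i+2`.
-/

open Finset

set_option linter.unusedSectionVars false

namespace H36FT

open H56FP

variable {n : ℕ}

/-- Optimal data: capped balanced `x`, potentials `p, q`, `y = z + p + q`. -/
structure Dat (g : M3 ℝ n) (d : ZMod 3 → Fin n → ℝ) (k s : ℝ) (z x : M3 ℝ n)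
    (p q e : ZMod 3 → Fin n → ℝ) : Prop where
  S : WSetup g d k
  s0 : 0 < s
  x0 : ∀ i a b, 0 ≤ x i a b
  x1 : ∀ i a b, x i a b ≤ 1
  e0 : ∀ i a, 0 ≤ e i a
  e1 : ∀ i a, e i a ≤ 1
  out : ∀ i a, ∑ b, g i a b * x i a b = s * (1 - e i a)
  inn : ∀ i a, ∑ c, g (i + 2) c a * x (i + 2) c a = s * (1 - e i a)
  yp : ∀ i a b, 0 < g i a b → 0 < z i a b + p i a + q (i + 1) b → x i a b = 0
  yn : ∀ i a b, 0 < g i a b → z i a b + p i a + q (i + 1) b < 0 → x i a b = 1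
  pq : ∀ i a, 0 ≤ p i a + q i a
  pqe : ∀ i a, 0 < p i a + q i a → e i a = 0
  tri : ∀ a b c, 0 < g 0 a b → 0 < g 1 b c → 0 < g 2 c a → 0 ≤ z 0 a b + z 1 b c + z 2 c a

/-- weight of a triangle (times `2 s`) -/
def F (g x : M3 ℝ n) (e : ZMod 3 → Fin n → ℝ) (i : ZMod 3) (a b c : Fin n) : ℝ :=
  g i a b * g (i + 1) b c * g (i + 2) c a *
    (x i a b * (1 + e (i + 2) c) + x (i + 1) b c * (1 + e i a) + x (i + 2) c a * (1 + e (i + 1) b))

lemma F_rot (g x : M3 ℝ n) (e : ZMod 3 → Fin n → ℝ) (i : ZMod 3) (a b c : Fin n) :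
    F g x e (i + 1) b c a = F g x e i a b c := by
  unfold F
  rw [e11, e12]
  ring

lemma F_rot2 (g x : M3 ℝ n) (e : ZMod 3 → Fin n → ℝ) (i : ZMod 3) (a b c : Fin n) :
    F g x e (i + 2) c a b = F g x e i a b c := by
  have h := F_rot g x e (i + 2) c a b
  rw [e21] at h
  rw [← h]

variable {g : M3 ℝ n} {d : ZMod 3 → Fin n → ℝ} {k s : ℝ} {z x : M3 ℝ n}
  {p q e : ZMod 3 → Fin n → ℝ}

lemma Dat.F0 (D : Dat g d k s z x p q e) (i : ZMod 3) (a b c : Fin n) : 0 ≤ F g x e i a b c := by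
  unfold F
  have := D.S.g0 i a b
  have := D.S.g0 (i + 1) b c
  have := D.S.g0 (i + 2) c a
  have := D.x0 i a b
  have := D.x0 (i + 1) b c
  have := D.x0 (i + 2) c a
  have := D.e0 i a
  have := D.e0 (i + 1) b
  have := D.e0 (i + 2) c
  positivity

/-- number of common neighbours -/
lemma Dat.codeg (D : Dat g d k s z x p q e) (i : ZMod 3) (a b : Fin n) :
    (n : ℝ) - 2 * k ≤ ∑ c, g (i + 1) b c * g (i + 2) c a := by
  have h1 : ∑ c, g (i + 1) b c * g (i + 2) c a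
      ≥ ∑ c, (1 - (1 - g (i + 1) b c) - (1 - g (i + 2) c a)) := by
    refine Finset.sum_le_sum fun c _ => ?_
    nlinarith [D.S.g0 (i + 1) b c, D.S.g1 (i + 1) b c, D.S.g0 (i + 2) c a, D.S.g1 (i + 2) c a,
      mul_nonneg (sub_nonneg.2 (D.S.g1 (i + 1) b c)) (sub_nonneg.2 (D.S.g1 (i + 2) c a))]
  have h2 : ∑ c, (1 - (1 - g (i + 1) b c) - (1 - g (i + 2) c a)) = n - d (i + 1) b - d i a := by
    rw [Finset.sum_sub_distrib, Finset.sum_sub_distrib, D.S.row, D.S.col, sum_const, card_univ,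
      Fintype.card_fin, nsmul_eq_mul, mul_one]
  have := D.S.dk (i + 1) b
  have := D.S.dk i a
  linarith

/-- the load of an edge -/
lemma Dat.load (D : Dat g d k s z x p q e) (hs : 2 * s ≤ n - 2 * k) (i : ZMod 3) (a b : Fin n) :
    (z i a b + p i a + q (i + 1) b) * ∑ c, F g x e i a b c
      ≤ 2 * s * (g i a b * (z i a b + p i a + q (i + 1) b)) := by
  rcases (D.S.g0 i a b).eq_or_lt with hg | hg
  · have : ∑ c, F g x e i a b c = 0 := by
      refine Finset.sum_eq_zero fun c _ => ?_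
      unfold F
      rw [← hg]; ring
    rw [this, ← hg]
    simp
  set y := z i a b + p i a + q (i + 1) b with hy
  have hL : ∑ c, F g x e i a b c = g i a b * (x i a b * ∑ c, g (i + 1) b c * g (i + 2) c a *
      (1 + e (i + 2) c) + (1 + e i a) * ∑ c, g (i + 2) c a * (g (i + 1) b c * x (i + 1) b c) +
      (1 + e (i + 1) b) * ∑ c, g (i + 1) b c * (g (i + 2) c a * x (i + 2) c a)) := by
    rw [Finset.mul_sum, Finset.mul_sum, Finset.mul_sum, ← Finset.sum_add_distrib,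
      ← Finset.sum_add_distrib, Finset.mul_sum]
    refine Finset.sum_congr rfl fun c _ => ?_
    unfold F
    ring
  have hT2 : ∑ c, g (i + 2) c a * (g (i + 1) b c * x (i + 1) b c) ≤ s * (1 - e (i + 1) b) := by
    rw [← D.out (i + 1) b]
    refine Finset.sum_le_sum fun c _ => ?_
    exact mul_le_of_le_one_left (mul_nonneg (D.S.g0 _ _ _) (D.x0 _ _ _)) (D.S.g1 _ _ _)
  have hT3 : ∑ c, g (i + 1) b c * (g (i + 2) c a * x (i + 2) c a) ≤ s * (1 - e i a) := by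
    rw [← D.inn i a]
    refine Finset.sum_le_sum fun c _ => ?_
    exact mul_le_of_le_one_left (mul_nonneg (D.S.g0 _ _ _) (D.x0 _ _ _)) (D.S.g1 _ _ _)
  have hT20 : 0 ≤ ∑ c, g (i + 2) c a * (g (i + 1) b c * x (i + 1) b c) :=
    Finset.sum_nonneg fun c _ => mul_nonneg (D.S.g0 _ _ _) (mul_nonneg (D.S.g0 _ _ _) (D.x0 _ _ _))
  have hT30 : 0 ≤ ∑ c, g (i + 1) b c * (g (i + 2) c a * x (i + 2) c a) :=
    Finset.sum_nonneg fun c _ => mul_nonneg (D.S.g0 _ _ _) (mul_nonneg (D.S.g0 _ _ _) (D.x0 _ _ _))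
  have hT1 : 2 * s ≤ ∑ c, g (i + 1) b c * g (i + 2) c a * (1 + e (i + 2) c) := by
    refine hs.trans ((D.codeg i a b).trans (Finset.sum_le_sum fun c _ => ?_))
    have := mul_nonneg (mul_nonneg (D.S.g0 (i + 1) b c) (D.S.g0 (i + 2) c a)) (D.e0 (i + 2) c)
    linarith
  obtain ⟨T1, hT1'⟩ : ∃ T1, T1 = ∑ c, g (i + 1) b c * g (i + 2) c a * (1 + e (i + 2) c) :=
    ⟨_, rfl⟩
  obtain ⟨T2, hT2'⟩ : ∃ T2, T2 = ∑ c, g (i + 2) c a * (g (i + 1) b c * x (i + 1) b c) :=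
    ⟨_, rfl⟩
  obtain ⟨T3, hT3'⟩ : ∃ T3, T3 = ∑ c, g (i + 1) b c * (g (i + 2) c a * x (i + 2) c a) :=
    ⟨_, rfl⟩
  rw [← hT1', ← hT2', ← hT3'] at hL
  rw [← hT1'] at hT1
  rw [← hT2'] at hT2 hT20
  rw [← hT3'] at hT3 hT30
  rw [hL]
  have ha0 := D.e0 i a
  have hb0 := D.e0 (i + 1) b
  have ha1 := D.e1 i a
  have hb1 := D.e1 (i + 1) b
  have hs0 := D.s0
  rcases lt_trichotomy y 0 with h | h | h
  · rw [D.yn i a b hg h, one_mul]
    have h1 : 2 * s ≤ T1 + (1 + e i a) * T2 + (1 + e (i + 1) b) * T3 := by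
      have := mul_nonneg (by linarith : 0 ≤ 1 + e i a) hT20
      have := mul_nonneg (by linarith : 0 ≤ 1 + e (i + 1) b) hT30
      linarith
    have h2 : g i a b * (2 * s) ≤ g i a b * (T1 + (1 + e i a) * T2 + (1 + e (i + 1) b) * T3) :=
      mul_le_mul_of_nonneg_left h1 hg.le
    have h3 := mul_le_mul_of_nonpos_left h2 h.le
    linarith
  · rw [h]; simp
  · rw [D.yp i a b hg h, zero_mul, zero_add]
    have h1 : (1 + e i a) * T2 + (1 + e (i + 1) b) * T3 ≤ 2 * s := by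
      have h2 : (1 + e i a) * T2 ≤ (1 + e i a) * (s * (1 - e (i + 1) b)) :=
        mul_le_mul_of_nonneg_left hT2 (by linarith)
      have h3 : (1 + e (i + 1) b) * T3 ≤ (1 + e (i + 1) b) * (s * (1 - e i a)) :=
        mul_le_mul_of_nonneg_left hT3 (by linarith)
      have h4 : 0 ≤ s * (e i a * e (i + 1) b) := by positivity
      nlinarith
    have h2 : g i a b * ((1 + e i a) * T2 + (1 + e (i + 1) b) * T3) ≤ g i a b * (2 * s) :=
      mul_le_mul_of_nonneg_left h1 hg.le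
    have h3 := mul_le_mul_of_nonneg_left h2 h.le
    linarith

/-- all deficiencies have the same total -/
lemma Dat.esum (D : Dat g d k s z x p q e) (i : ZMod 3) : ∑ a, e (i + 1) a = ∑ a, e i a := by
  have h1 : ∑ a, s * (1 - e (i + 1) a) = ∑ a, s * (1 - e i a) := by
    have h2 : ∑ a, s * (1 - e (i + 1) a) = ∑ a, ∑ c, g i c a * x i c a := by
      refine Finset.sum_congr rfl fun a _ => ?_
      have := D.inn (i + 1) a
      rw [e12] at this
      exact this.symm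
    rw [h2, Finset.sum_comm]
    exact Finset.sum_congr rfl fun a _ => D.out i a
  rw [← Finset.mul_sum, ← Finset.mul_sum] at h1
  have h2 := mul_left_cancel₀ D.s0.ne' h1
  simp only [Finset.sum_sub_distrib] at h2
  linarith

/-- the quadratic loss -/
lemma loss_le {X f : Fin n → ℝ} {m : Fin n → Fin n → ℝ} {K s : ℝ} (hX0 : ∀ b, 0 ≤ X b)
    (hX1 : ∀ b, X b ≤ 1) (hXs : ∑ b, X b ≤ s) (hf0 : ∀ c, 0 ≤ f c) (hf1 : ∀ c, f c ≤ 1)
    (hm : ∀ b c, 0 ≤ m b c) (hr : ∀ b, ∑ c, m b c ≤ K) (hc : ∀ c, ∑ b, m b c ≤ K) (hK : 0 ≤ K) :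
    ∑ b, ∑ c, X b * m b c * f c ≤ K * ∑ c, f c ∧ ∑ b, ∑ c, X b * m b c * f c ≤ s * K := by
  constructor
  · rw [Finset.sum_comm, Finset.mul_sum]
    refine Finset.sum_le_sum fun c _ => ?_
    rw [← Finset.sum_mul]
    refine mul_le_mul_of_nonneg_right ?_ (hf0 c)
    refine le_trans (Finset.sum_le_sum fun b _ => ?_) (hc c)
    exact mul_le_of_le_one_left (hm b c) (hX1 b)
  · have h1 : ∑ b, ∑ c, X b * m b c * f c ≤ ∑ b, X b * K := by
      refine Finset.sum_le_sum fun b _ => ?_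
      have h2 : ∑ c, X b * m b c * f c ≤ ∑ c, X b * m b c :=
        Finset.sum_le_sum fun c _ => mul_le_of_le_one_right (mul_nonneg (hX0 b) (hm b c)) (hf1 c)
      rw [← Finset.mul_sum] at h2
      exact h2.trans (mul_le_mul_of_nonneg_left (hr b) (hX0 b))
    rw [← Finset.sum_mul] at h1
    exact h1.trans (mul_le_mul_of_nonneg_right hXs hK)

end H36FT
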