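import Pool.Agent.H36.FT.Exist
import Pool.Agent.NW3.FinalFifth
import Pool.Agent.NW3.Step3
import Pool.Agent.NW3.LVortexProof
import Pool.Agent.NW3.AbsWrap

/-!
# The constant `3 / 14`

`ft : NW3.FT (3 / 14)`: every weighted locally balanced tripartite graph with deficiencies at most
`3 n / 14` has a fractional triangle decomposition; `proto`: completion of protoplexes of large
order with `k ≤ (3 / 14 - ε) n`.
-/

namespace H36FT

open H56FP

theorem ft : NW3.FT (3 / 14) := by
  intro m g d S
  exact frac_decomp S (by positivity) (by linarith)

theorem proto : NW3.Proto (3 / 14) :=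
  NW3.proto_of_FT NW3.lVortexStatement NW3.step3 NW3.absorber (3 / 14) (by norm_num)
    (by norm_num) ft

end H36FT
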