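import Pool.Agent.H36.FT.Vert

/-!
# Fractional triangle decompositions of 3-partite graphs up to `3 n / 14`: the total weight
-/

open Finset

set_option linter.unusedSectionVars false

namespace H36FT

open H56FP

variable {n : ℕ} {g : M3 ℝ n} {d : ZMod 3 → Fin n → ℝ} {k s : ℝ} {z x : M3 ℝ n}
  {p q e : ZMod 3 → Fin n → ℝ}

lemma sum3 (f : ZMod 3 → ℝ) : ∑ i, f i = f 0 + f 1 + f 2 := by
  rw [show (Finset.univ : Finset (ZMod 3)) = {0, 1, 2} by decide, Finset.sum_insert (by decide),
    Finset.sum_insert (by decide), Finset.sum_singleton]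
  ring

lemma y01 : (0 : ZMod 3) + 1 = 1 := by decide
lemma y11 : (1 : ZMod 3) + 1 = 2 := by decide
lemma y21 : (2 : ZMod 3) + 1 = 0 := by decide
lemma y02 : (0 : ZMod 3) + 2 = 2 := by decide
lemma y12 : (1 : ZMod 3) + 2 = 0 := by decide
lemma y22 : (2 : ZMod 3) + 2 = 1 := by decide

/-- The total weight is nonnegative. -/
theorem Dat.total (D : Dat g d k s z x p q e) (hk : 0 ≤ k) (hn : 4 * k ≤ n)
    (hs1 : 2 * s ≤ n - 2 * k) (hs2 : 6 * k - n ≤ s) :
    0 ≤ ∑ i, ∑ a, ∑ b, g i a b * z i a b := by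
  have hs := D.s0
  -- step 1: nonnegativity on the triangles
  have h1 : 0 ≤ ∑ a, ∑ b, ∑ c, F g x e 0 a b c * (z 0 a b + z 1 b c + z 2 c a) := by
    refine Finset.sum_nonneg fun a _ => Finset.sum_nonneg fun b _ => Finset.sum_nonneg fun c _ => ?_
    rcases (D.S.g0 0 a b).eq_or_lt with h | h
    · unfold F; rw [← h]; simp
    rcases (D.S.g0 1 b c).eq_or_lt with h' | h'
    · unfold F; rw [y01, ← h']; simp
    rcases (D.S.g0 2 c a).eq_or_lt with h'' | h''
    · unfold F; rw [y02, ← h'']; simp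
    exact mul_nonneg (D.F0 _ _ _ _) (D.tri a b c h h' h'')
  -- step 2: regroup
  have h2 : ∑ a, ∑ b, ∑ c, F g x e 0 a b c * (z 0 a b + z 1 b c + z 2 c a)
      = ∑ i, (∑ a, ∑ b, (z i a b + p i a + q (i + 1) b) * ∑ c, F g x e i a b c
        - ∑ a, (p i a + q i a) * ∑ b, ∑ c, F g x e i a b c) := by
    have hi : ∀ i, (∑ a, ∑ b, (z i a b + p i a + q (i + 1) b) * ∑ c, F g x e i a b c
        - ∑ a, (p i a + q i a) * ∑ b, ∑ c, F g x e i a b c)
        = ∑ a, ∑ b, ∑ c, F g x e i a b c * (z i a b + q (i + 1) b - q i a) := by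
      intro i
      rw [← Finset.sum_sub_distrib]
      refine Finset.sum_congr rfl fun a _ => ?_
      rw [Finset.mul_sum, ← Finset.sum_sub_distrib]
      refine Finset.sum_congr rfl fun b _ => ?_
      rw [Finset.mul_sum, Finset.mul_sum, ← Finset.sum_sub_distrib]
      refine Finset.sum_congr rfl fun c _ => ?_
      ring
    rw [sum3, hi 0, hi 1, hi 2]
    have r1 : ∑ a, ∑ b, ∑ c, F g x e 1 a b c * (z 1 a b + q (1 + 1) b - q 1 a)
        = ∑ a, ∑ b, ∑ c, F g x e 0 a b c * (z 1 b c + q 2 c - q 1 b) := by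
      rw [H56FP.rot (fun a b c => F g x e 0 c a b * (z 1 a b + q 2 b - q 1 a))]
      refine Finset.sum_congr rfl fun a _ => Finset.sum_congr rfl fun b _ =>
        Finset.sum_congr rfl fun c _ => ?_
      have := F_rot g x e 0 c a b
      rw [y01] at this
      rw [this, y11]
    have r2 : ∑ a, ∑ b, ∑ c, F g x e 2 a b c * (z 2 a b + q (2 + 1) b - q 2 a)
        = ∑ a, ∑ b, ∑ c, F g x e 0 a b c * (z 2 c a + q 0 a - q 2 c) := by
      rw [← H56FP.rot (fun a b c => F g x e 0 a b c * (z 2 c a + q 0 a - q 2 c))]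
      refine Finset.sum_congr rfl fun a _ => Finset.sum_congr rfl fun b _ =>
        Finset.sum_congr rfl fun c _ => ?_
      have := F_rot2 g x e 0 b c a
      rw [y02] at this
      rw [this, y21]
    rw [r1, r2, y01, ← Finset.sum_add_distrib, ← Finset.sum_add_distrib]
    refine Finset.sum_congr rfl fun a _ => ?_
    rw [← Finset.sum_add_distrib, ← Finset.sum_add_distrib]
    refine Finset.sum_congr rfl fun b _ => ?_
    rw [← Finset.sum_add_distrib, ← Finset.sum_add_distrib]
    refine Finset.sum_congr rfl fun c _ => ?_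
    ring
  -- step 3: the local estimates
  have h3 : ∀ i, (∑ a, ∑ b, (z i a b + p i a + q (i + 1) b) * ∑ c, F g x e i a b c
        - ∑ a, (p i a + q i a) * ∑ b, ∑ c, F g x e i a b c)
        ≤ 2 * s * (∑ a, ∑ b, g i a b * (z i a b + p i a + q (i + 1) b)
          - ∑ a, (p i a + q i a) * (n - d i a)) := by
    intro i
    have h4 : ∑ a, ∑ b, (z i a b + p i a + q (i + 1) b) * ∑ c, F g x e i a b c
        ≤ 2 * s * ∑ a, ∑ b, g i a b * (z i a b + p i a + q (i + 1) b) := by
      simp only [Finset.mul_sum]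
      refine Finset.sum_le_sum fun a _ => Finset.sum_le_sum fun b _ => ?_
      have := D.load hs1 i a b
      rw [Finset.mul_sum] at this
      exact this
    have h5 : 2 * s * ∑ a, (p i a + q i a) * (n - d i a)
        ≤ ∑ a, (p i a + q i a) * ∑ b, ∑ c, F g x e i a b c := by
      rw [Finset.mul_sum]
      refine Finset.sum_le_sum fun a _ => ?_
      rcases (D.pq i a).eq_or_lt with h | h
      · rw [← h]; simp
      · have h6 := D.vertex hk hn hs2 i a (D.pqe i a h)
        have h7 := mul_le_mul_of_nonneg_left h6 h.le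
        linarith
    rw [mul_sub]
    linarith
  -- step 4: the sums of the potentials cancel
  have hrow : ∀ i a, ∑ b, g i a b = n - d i a := by
    intro i a
    have := D.S.row i a
    rw [Finset.sum_sub_distrib, sum_const, card_univ, Fintype.card_fin, nsmul_eq_mul, mul_one]
      at this
    linarith
  have hcol : ∀ i b, ∑ a, g i a b = n - d (i + 1) b := by
    intro i b
    have := D.S.col (i + 1) b
    rw [e12, Finset.sum_sub_distrib, sum_const, card_univ, Fintype.card_fin, nsmul_eq_mul, mul_one]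
      at this
    linarith
  have h6 : ∀ i, ∑ a, ∑ b, g i a b * (z i a b + p i a + q (i + 1) b)
      = ∑ a, ∑ b, g i a b * z i a b + ∑ a, p i a * (n - d i a)
        + ∑ b, q (i + 1) b * (n - d (i + 1) b) := by
    intro i
    have h7 : ∑ a, ∑ b, g i a b * (z i a b + p i a + q (i + 1) b)
        = ∑ a, ∑ b, g i a b * z i a b + ∑ a, ∑ b, p i a * g i a b
          + ∑ a, ∑ b, q (i + 1) b * g i a b := by
      simp only [← Finset.sum_add_distrib]
      refine Finset.sum_congr rfl fun a _ => Finset.sum_congr rfl fun b _ => ?_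
      ring
    rw [h7]
    congr 1
    · congr 1
      refine Finset.sum_congr rfl fun a _ => ?_
      rw [← Finset.mul_sum, hrow]
    · rw [Finset.sum_comm]
      refine Finset.sum_congr rfl fun b _ => ?_
      rw [← Finset.mul_sum, hcol]
  have h8 : ∑ i, (∑ a, ∑ b, g i a b * (z i a b + p i a + q (i + 1) b)
          - ∑ a, (p i a + q i a) * (n - d i a)) = ∑ i, ∑ a, ∑ b, g i a b * z i a b := by
    have h9 : ∑ i, ∑ b, q (i + 1) b * ((n : ℝ) - d (i + 1) b) = ∑ i, ∑ b, q i b * (n - d i b) :=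
      H56FP.sum_shift1 (fun i => ∑ b, q i b * ((n : ℝ) - d i b))
    rw [Finset.sum_sub_distrib, Finset.sum_congr rfl fun i _ => h6 i, Finset.sum_add_distrib,
      Finset.sum_add_distrib, h9]
    have h10 : ∑ i, ∑ a, (p i a + q i a) * ((n : ℝ) - d i a)
        = ∑ i, ∑ a, p i a * (n - d i a) + ∑ i, ∑ a, q i a * (n - d i a) := by
      simp only [← Finset.sum_add_distrib]
      refine Finset.sum_congr rfl fun i _ => Finset.sum_congr rfl fun a _ => ?_
      ring
    rw [h10]
    ring
  have h11 : ∑ i, (∑ a, ∑ b, (z i a b + p i a + q (i + 1) b) * ∑ c, F g x e i a b c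
        - ∑ a, (p i a + q i a) * ∑ b, ∑ c, F g x e i a b c)
        ≤ 2 * s * ∑ i, ∑ a, ∑ b, g i a b * z i a b := by
    rw [← h8, Finset.mul_sum]
    exact Finset.sum_le_sum fun i _ => h3 i
  rw [← h2] at h11
  have h12 := h1.trans h11
  exact (mul_nonneg_iff_of_pos_left (by linarith)).1 h12

end H36FT
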