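import Pool.Agent.H36.FT.Local

/-!
# Fractional triangle decompositions of 3-partite graphs up to `3 n / 14`: vertex loads
-/

open Finset

set_option linter.unusedSectionVars false

namespace H36FT

open H56FP

variable {n : ℕ}

/-- The vertex load, abstract form: `u, v` are the weights of the edges from the vertex to the two
other parts, `m` the weights between these parts, `X = u x`, `Y = v x'`, `W = m x''`. -/
lemma vertex_abs {u v f h X Y d1 d2 : Fin n → ℝ} {m W : Fin n → Fin n → ℝ} {k s δ E : ℝ}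
    (hu : ∀ b, 0 ≤ u b ∧ u b ≤ 1) (hv : ∀ c, 0 ≤ v c ∧ v c ≤ 1)
    (hm : ∀ b c, 0 ≤ m b c ∧ m b c ≤ 1)
    (hW : ∀ b c, 0 ≤ W b c) (hX : ∀ b, 0 ≤ X b ∧ X b ≤ 1) (hY : ∀ c, 0 ≤ Y c ∧ Y c ≤ 1)
    (hf : ∀ b, 0 ≤ f b ∧ f b ≤ 1) (hh : ∀ c, 0 ≤ h c ∧ h c ≤ 1)
    (hXs : ∑ b, X b = s) (hYs : ∑ c, Y c = s)
    (hus : ∑ b, (1 - u b) = δ) (hvs : ∑ c, (1 - v c) = δ)
    (hW1 : ∀ b, ∑ c, W b c = s * (1 - f b)) (hW2 : ∀ c, ∑ b, W b c = s * (1 - h c))
    (hm1 : ∀ b, ∑ c, (1 - m b c) = d1 b) (hm2 : ∀ c, ∑ b, (1 - m b c) = d2 c)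
    (hd1 : ∀ b, d1 b ≤ k) (hd2 : ∀ c, d2 c ≤ k) (hδ : δ ≤ k)
    (hfE : ∑ b, f b = E) (hhE : ∑ c, h c = E) (hs : 0 < s) (hk : 0 ≤ k)
    (hn : 4 * k ≤ n) (hs2 : 6 * k - n ≤ s) :
    2 * s * (n - δ) ≤ ∑ b, ∑ c, (X b * (v c * m b c) * (1 + h c) + u b * v c * W b c +
      Y c * (u b * m b c) * (1 + f b)) := by
  have hmul : ∀ p q : ℝ, p ≤ 1 → q ≤ 1 → p - (1 - q) ≤ q * p := by
    intro p q hp hq
    nlinarith [mul_nonneg (sub_nonneg.2 hp) (sub_nonneg.2 hq)]
  have hone : ∑ _b : Fin n, (1 : ℝ) = n := by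
    rw [sum_const, card_univ, Fintype.card_fin, nsmul_eq_mul, mul_one]
  -- the three parts
  have hA : s * (n - E) - 2 * s * δ + s * ∑ b, (1 - u b) * f b + s * ∑ c, (1 - v c) * h c
      ≤ ∑ b, ∑ c, u b * v c * W b c := by
    have h1 : ∑ b, ∑ c, (W b c - (1 - u b) * W b c - (1 - v c) * W b c)
        ≤ ∑ b, ∑ c, u b * v c * W b c := by
      refine Finset.sum_le_sum fun b _ => Finset.sum_le_sum fun c _ => ?_
      have h2 := hmul (u b) (v c) (hu b).2 (hv c).2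
      have h3 := mul_le_mul_of_nonneg_right h2 (hW b c)
      nlinarith
    have h4 : ∑ b, ∑ c, (W b c - (1 - u b) * W b c - (1 - v c) * W b c)
        = ∑ b, s * (1 - f b) - ∑ b, (1 - u b) * (s * (1 - f b)) -
          ∑ c, (1 - v c) * (s * (1 - h c)) := by
      simp only [Finset.sum_sub_distrib]
      congr 1
      · congr 1
        · exact Finset.sum_congr rfl fun b _ => hW1 b
        · refine Finset.sum_congr rfl fun b _ => ?_
          rw [← Finset.mul_sum, hW1]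
      · rw [Finset.sum_comm]
        refine Finset.sum_congr rfl fun c _ => ?_
        rw [← Finset.mul_sum, hW2]
    have h5 : ∑ b, s * (1 - f b) = s * (n - E) := by
      rw [← Finset.mul_sum, Finset.sum_sub_distrib, hone, hfE]
    have h6 : ∑ b, (1 - u b) * (s * (1 - f b)) = s * δ - s * ∑ b, (1 - u b) * f b := by
      rw [← hus, Finset.mul_sum, Finset.mul_sum, ← Finset.sum_sub_distrib]
      exact Finset.sum_congr rfl fun b _ => by ring
    have h7 : ∑ c, (1 - v c) * (s * (1 - h c)) = s * δ - s * ∑ c, (1 - v c) * h c := by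
      rw [← hvs, Finset.mul_sum, Finset.mul_sum, ← Finset.sum_sub_distrib]
      exact Finset.sum_congr rfl fun b _ => by ring
    rw [h4, h5, h6, h7] at h1
    linarith
  have hbase : ∀ (X v h d1 : Fin n → ℝ) (m : Fin n → Fin n → ℝ), (∀ b, 0 ≤ X b) →
      (∀ c, v c ≤ 1) → (∀ c, 0 ≤ h c) → (∀ b c, m b c ≤ 1) →
      ∑ b, X b = s → ∑ c, (1 - v c) = δ → (∀ b, ∑ c, (1 - m b c) = d1 b) → (∀ b, d1 b ≤ k) →
      ∑ c, h c = E →
      s * (n + E - δ - k) - s * ∑ c, (1 - v c) * h c - ∑ b, ∑ c, X b * (1 - m b c) * h c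
        ≤ ∑ b, ∑ c, X b * (v c * m b c) * (1 + h c) := by
    intro X v h d1 m hX hv hh hm hXs hvs hm1 hd1 hhE
    have h1 : ∀ b, X b * (n + E - δ - k - ∑ c, (1 - v c) * h c) - ∑ c, X b * (1 - m b c) * h c
        ≤ ∑ c, X b * (v c * m b c) * (1 + h c) := by
      intro b
      have h2 : ∑ c, X b * ((m b c - (1 - v c)) * (1 + h c))
          ≤ ∑ c, X b * (v c * m b c) * (1 + h c) := by
        refine Finset.sum_le_sum fun c _ => ?_
        have h3 := hmul (m b c) (v c) (hm b c) (hv c)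
        have h4 := mul_le_mul_of_nonneg_right h3 (by linarith [hh c] : 0 ≤ 1 + h c)
        have h5 := mul_le_mul_of_nonneg_left h4 (hX b)
        linarith
      have h6 : ∑ c, X b * ((m b c - (1 - v c)) * (1 + h c)) =
          X b * (∑ _c : Fin n, (1 : ℝ) + ∑ c, h c - ∑ c, (1 - m b c) - ∑ c, (1 - v c)
            - ∑ c, (1 - v c) * h c) - ∑ c, X b * (1 - m b c) * h c := by
        rw [← Finset.sum_add_distrib, ← Finset.sum_sub_distrib, ← Finset.sum_sub_distrib,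
          ← Finset.sum_sub_distrib, Finset.mul_sum, ← Finset.sum_sub_distrib]
        refine Finset.sum_congr rfl fun c _ => ?_
        ring
      rw [h6, hone, hhE, hm1, hvs] at h2
      have h7 := mul_le_mul_of_nonneg_left (hd1 b) (hX b)
      nlinarith
    have h8 := Finset.sum_le_sum fun b (_ : b ∈ Finset.univ) => h1 b
    rw [Finset.sum_sub_distrib, ← Finset.sum_mul, hXs] at h8
    linarith
  have hB := hbase X v h d1 m (fun b => (hX b).1) (fun c => (hv c).2) (fun c => (hh c).1)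
    (fun b c => (hm b c).2) hXs hvs hm1 hd1 hhE
  have hC := hbase Y u f d2 (fun c b => m b c) (fun b => (hY b).1) (fun c => (hu c).2)
    (fun c => (hf c).1) (fun b c => (hm c b).2) hYs hus hm2 hd2 hfE
  have hC' : ∑ c, ∑ b, Y c * (u b * m b c) * (1 + f b)
      = ∑ b, ∑ c, Y c * (u b * m b c) * (1 + f b) := Finset.sum_comm
  have hQ1 := loss_le (X := X) (f := h) (m := fun b c => 1 - m b c) (K := k) (s := s)
    (fun b => (hX b).1) (fun b => (hX b).2) hXs.le (fun c => (hh c).1) (fun c => (hh c).2)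
    (fun b c => by linarith [(hm b c).2]) (fun b => (hm1 b).le.trans (hd1 b))
    (fun c => (hm2 c).le.trans (hd2 c)) hk
  have hQ2 := loss_le (X := Y) (f := f) (m := fun c b => 1 - m b c) (K := k) (s := s)
    (fun b => (hY b).1) (fun b => (hY b).2) hYs.le (fun c => (hf c).1) (fun c => (hf c).2)
    (fun b c => by linarith [(hm c b).2]) (fun b => (hm2 b).le.trans (hd2 b))
    (fun c => (hm1 c).le.trans (hd1 c)) hk
  rw [hhE] at hQ1
  rw [hfE] at hQ2
  have hsplit : ∑ b, ∑ c, (X b * (v c * m b c) * (1 + h c) + u b * v c * W b c +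
      Y c * (u b * m b c) * (1 + f b)) = ∑ b, ∑ c, X b * (v c * m b c) * (1 + h c) +
      ∑ b, ∑ c, u b * v c * W b c + ∑ b, ∑ c, Y c * (u b * m b c) * (1 + f b) := by
    simp only [Finset.sum_add_distrib]
  rw [hsplit, ← hC']
  have hE : 0 ≤ E := by rw [← hfE]; exact Finset.sum_nonneg fun b _ => (hf b).1
  obtain ⟨Q1, hQ1'⟩ : ∃ Q, Q = ∑ b, ∑ c, X b * (1 - m b c) * h c := ⟨_, rfl⟩
  obtain ⟨Q2, hQ2'⟩ : ∃ Q, Q = ∑ c, ∑ b, Y c * (1 - m b c) * f b := ⟨_, rfl⟩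
  rw [← hQ1'] at hQ1 hB
  rw [← hQ2'] at hQ2 hC
  have hfin : 0 ≤ s * (n + E) - 4 * (s * k) - Q1 - Q2 := by
    rcases le_total E s with hEs | hEs
    · rcases le_total s (2 * k) with h2 | h2
      · have h3 : (2 * k - s) * E ≤ (2 * k - s) * s :=
          mul_le_mul_of_nonneg_left hEs (by linarith)
        have h4 : 0 ≤ s * (s - (6 * k - n)) := mul_nonneg hs.le (by linarith)
        nlinarith [hQ1.1, hQ2.1]
      · have h3 : 0 ≤ (s - 2 * k) * E := mul_nonneg (by linarith) hE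
        have h4 : 0 ≤ s * (n - 4 * k) := mul_nonneg hs.le (by linarith)
        nlinarith [hQ1.1, hQ2.1]
    · have h3 : 0 ≤ s * (E - s) := mul_nonneg hs.le (by linarith)
      have h4 : 0 ≤ s * (s - (6 * k - n)) := mul_nonneg hs.le (by linarith)
      nlinarith [hQ1.2, hQ2.2]
  have h9 : s * δ ≤ s * k := mul_le_mul_of_nonneg_left hδ hs.le
  nlinarith

variable {g : M3 ℝ n} {d : ZMod 3 → Fin n → ℝ} {k s : ℝ} {z x : M3 ℝ n}
  {p q e : ZMod 3 → Fin n → ℝ}

/-- the load of a saturated vertex -/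
lemma Dat.vertex (D : Dat g d k s z x p q e) (hk : 0 ≤ k) (hn : 4 * k ≤ n)
    (hs2 : 6 * k - n ≤ s) (i : ZMod 3) (a : Fin n) (he : e i a = 0) :
    2 * s * (n - d i a) ≤ ∑ b, ∑ c, F g x e i a b c := by
  have h := vertex_abs (n := n) (u := fun b => g i a b) (v := fun c => g (i + 2) c a)
    (f := e (i + 1)) (h := e (i + 2)) (X := fun b => g i a b * x i a b)
    (Y := fun c => g (i + 2) c a * x (i + 2) c a) (d1 := d (i + 1)) (d2 := d (i + 2))
    (m := g (i + 1)) (W := fun b c => g (i + 1) b c * x (i + 1) b c) (k := k) (s := s)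
    (δ := d i a) (E := ∑ a, e i a)
    (fun b => ⟨D.S.g0 _ _ _, D.S.g1 _ _ _⟩) (fun b => ⟨D.S.g0 _ _ _, D.S.g1 _ _ _⟩)
    (fun b c => ⟨D.S.g0 _ _ _, D.S.g1 _ _ _⟩)
    (fun b c => mul_nonneg (D.S.g0 _ _ _) (D.x0 _ _ _))
    (fun b => ⟨mul_nonneg (D.S.g0 _ _ _) (D.x0 _ _ _),
      mul_le_one₀ (D.S.g1 _ _ _) (D.x0 _ _ _) (D.x1 _ _ _)⟩)
    (fun b => ⟨mul_nonneg (D.S.g0 _ _ _) (D.x0 _ _ _),
      mul_le_one₀ (D.S.g1 _ _ _) (D.x0 _ _ _) (D.x1 _ _ _)⟩)
    (fun b => ⟨D.e0 _ _, D.e1 _ _⟩) (fun b => ⟨D.e0 _ _, D.e1 _ _⟩)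
    (by rw [D.out, he]; ring) (by rw [D.inn, he]; ring) (D.S.row i a) (D.S.col i a)
    (fun b => D.out (i + 1) b)
    (fun c => by
      have := D.inn (i + 2) c
      rw [e22] at this
      exact this)
    (fun b => D.S.row (i + 1) b)
    (fun c => by
      have := D.S.col (i + 2) c
      rw [e22] at this
      exact this)
    (fun b => D.S.dk _ _) (fun b => D.S.dk _ _) (D.S.dk _ _) (D.esum i)
    (by
      have := D.esum (i + 1)
      rw [e11] at this
      rw [this, D.esum])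
    D.s0 hk hn hs2
  refine h.trans (le_of_eq ?_)
  refine Finset.sum_congr rfl fun b _ => Finset.sum_congr rfl fun c _ => ?_
  unfold F
  rw [he]
  ring

end H36FT
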